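import Pool.Agent.H84.PP.Stm

/-!
# Project PP: square roots of a squarefree integer modulo `n`
-/

set_option autoImplicit false

namespace Pool.Agent.H18.PP

open Pool.Agent.H84.PP

theorem card_mul {a b : ℕ} (hab : a.Coprime b) (d : ℤ) :
    {r : ZMod (a * b) | r ^ 2 = (d : ZMod (a * b))}.ncard =
      {r : ZMod a | r ^ 2 = (d : ZMod a)}.ncard * {r : ZMod b | r ^ 2 = (d : ZMod b)}.ncard := by
  rw [← Set.ncard_prod, ← Set.ncard_image_of_injective _ (ZMod.chineseRemainder hab).injective]
  congr 1
  ext ⟨x, y⟩
  simp only [Set.mem_image, Set.mem_ofPred_eq, Set.mem_prod]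
  constructor
  · rintro ⟨r, hr, h⟩
    have h1 := congrArg (ZMod.chineseRemainder hab) hr
    rw [map_pow, map_intCast, h] at h1
    exact ⟨congrArg Prod.fst h1, congrArg Prod.snd h1⟩
  · rintro ⟨hx, hy⟩
    refine ⟨(ZMod.chineseRemainder hab).symm (x, y), ?_, by simp⟩
    rw [← map_pow]
    have h1 : ((x, y) : ZMod a × ZMod b) ^ 2 = ((d : ℤ) : ZMod a × ZMod b) := by
      ext
      · simpa using hx
      · simpa using hy
    rw [h1, map_intCast]

/-- RTS -/
theorem rts (hRTP : S_RTP) : S_RTS := by
  intro n d hn hd
  have key : ∀ n : ℕ, 1 ≤ n → {r : ZMod n | r ^ 2 = (d : ZMod n)}.ncard ≤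
      (if 2 ∣ n then 2 else 1) * n.divisors.card := by
    intro n
    induction n using Nat.recOnPosPrimePosCoprime with
    | prime_pow q k hq hk =>
      intro _
      have h1 := hRTP q k d hq hk hd
      have h2 : (q ^ k).divisors.card = k + 1 := by
        rw [Nat.divisors_prime_pow hq]
        simp
      rw [h2]
      refine h1.trans ?_
      by_cases hq2 : q = 2
      · subst hq2
        rw [if_pos rfl, if_pos (dvd_pow_self 2 (by omega))]
        omega
      · rw [if_neg hq2]
        have h3 : ¬ 2 ∣ q ^ k := fun h => hq2 (((Nat.prime_dvd_prime_iff_eq Nat.prime_two hq).1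
          (Nat.prime_two.dvd_of_dvd_pow h)).symm)
        rw [if_neg h3]
        omega
    | zero => intro h; omega
    | one =>
      intro _
      have : {r : ZMod 1 | r ^ 2 = (d : ZMod 1)}.ncard ≤ (Set.univ : Set (ZMod 1)).ncard :=
        Set.ncard_le_ncard (Set.subset_univ _) Set.finite_univ
      refine this.trans ?_
      rw [Set.ncard_univ]
      simp
    | coprime a b ha hb hab iha ihb =>
      intro _
      rw [card_mul hab, Nat.Coprime.card_divisors_mul hab]
      refine (Nat.mul_le_mul (iha (by omega)) (ihb (by omega))).trans ?_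
      have h1 : (if 2 ∣ a then 2 else 1) * (if 2 ∣ b then 2 else 1) ≤
          (if 2 ∣ a * b then 2 else 1) := by
        by_cases h2a : 2 ∣ a
        · have h2b : ¬ 2 ∣ b := fun h => by
            have := Nat.dvd_gcd h2a h
            rw [hab] at this
            omega
          rw [if_pos h2a, if_neg h2b, if_pos (h2a.mul_right b)]
        · rw [if_neg h2a, one_mul]
          by_cases h2b : 2 ∣ b
          · rw [if_pos h2b, if_pos (h2b.mul_left a)]
          · rw [if_neg h2b]
            split_ifs <;> omega
      calc _ = ((if 2 ∣ a then 2 else 1) * (if 2 ∣ b then 2 else 1)) *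
            (a.divisors.card * b.divisors.card) := by ring
        _ ≤ _ := Nat.mul_le_mul_right _ h1
  have h1 := key n hn
  have h2 : (if 2 ∣ n then 2 else 1) * n.divisors.card ≤ 4 * n.divisors.card := by
    refine Nat.mul_le_mul_right _ ?_
    split_ifs <;> omega
  exact_mod_cast h1.trans h2

end Pool.Agent.H18.PP
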