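import Pool.Agent.H84.PP.Stm

/-!
# Project PP: the common divisor can be split off
-/

set_option autoImplicit false

namespace Pool.Agent.H18.PP

open Pool.Agent.H84.PP

/-- SI -/
theorem si : S_SI := by
  intro B b n hb hn hB
  set g := B.gcd b with hg
  have hgb : g ∣ b := Nat.gcd_dvd_right B b
  have hbe : b = g * (b / g) := (Nat.mul_div_cancel' hgb).symm
  have hg0 : g ≠ 0 := fun h => hb (by rw [hbe, h, zero_mul])
  have hm0 : b / g ≠ 0 := fun h => hb (by rw [hbe, h, mul_zero])
  refine full (by norm_num) hm0 fun q hq hqL hqm => ?_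
  have hq6 : ¬ q ∣ 6 := fun h => hqL (h.mul_right _)
  have hqg : ¬ q ∣ g := fun h => hqL ((h.mul_right n).mul_left 6)
  have hqn : ¬ q ∣ n := fun h => hqL ((h.mul_left g).mul_left 6)
  have hqb : q ∣ b := by
    rw [hbe]
    exact hqm.mul_left g
  have hqB : ¬ q ∣ B := fun h => hqg (Nat.dvd_gcd h hqb)
  obtain ⟨σ, z, hσ, hsm⟩ := hB
  have hqz : q ∣ z := by
    by_cases hqσ : q ∣ σ
    · rcases hq.dvd_mul.1 (hsm q hq hqσ) with h | h
      · rcases hq.dvd_mul.1 h with h | h
        · exact absurd h hq6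
        · rcases hq.dvd_mul.1 h with h | h
          · exact absurd h hqB
          · exact absurd h hqn
      · exact h
    · rw [hσ] at hqb
      exact hq.dvd_of_dvd_pow ((hq.dvd_mul.1 hqb).resolve_left hqσ)
  have : Fact q.Prime := ⟨hq⟩
  have h1 : q ^ 13 ∣ b := by
    rw [hσ]
    exact (pow_dvd_pow_of_dvd hqz 13).mul_left σ
  have h2 : 13 ≤ padicValNat q b := (padicValNat_dvd_iff_le hb).1 h1
  have h3 : padicValNat q b = padicValNat q (b / g) := by
    conv_lhs => rw [hbe]
    rw [padicValNat.mul hg0 hm0, padicValNat.eq_zero_of_not_dvd hqg, zero_add]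
  omega

end Pool.Agent.H18.PP
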